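import Mathlib
import Pool.Agent.Q17.IG.Prp
import Pool.Agent.Y667.QK.Main0
import Pool.Agent.Y388.QK.Flip
import Pool.Agent.Y388.QK.Deg

/-! Positive proportions, one of finitely many properties; the simultaneous twists. -/

set_option autoImplicit false

namespace Pool.Agent.Q17.QF

open Finset Filter Topology
open Pool.Agent.W307.RT (Sh Cv LOW HasT)
open Pool.Agent.Y679.Cr (Ok cs isMin_of full_of Gm Bdd Good)
open Pool.Agent.TH841.SH.D (Pt act Sha)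
open Pool.Agent.Q17.IG (Lk Q4 Fm P4 img Fm_up Fm_mono G4_up G4_ge G4_fin good_Ok roots_Ok sha_two
  pt_two)

open Classical in
/-- **positive proportions, by height** -/
theorem posHL {ι : Type} {Lst : Finset ι} {T : ι → ℤ × ℤ → Prop} (hT : ∃ c : ℝ, 0 < c ∧
      ∃ H0 : ℕ, ∀ H : ℕ, H0 ≤ H → ∃ d ∈ Lst,
      ∃ S : Finset (ℤ × ℤ), (S : Set (ℤ × ℤ)) ⊆ {k | k ∈ Cv 2 H ∧ T d k} ∧
      c * ((Cv 2 H).card : ℝ) ≤ (S.card : ℝ)) :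
    ∃ δ : ℝ, 0 < δ ∧ ∃ H0 : ℕ, ∀ H : ℕ, H0 ≤ H → ∃ d ∈ Lst,
      δ * ((Fm H).card : ℝ) ≤ (((Fm H).filter (Q4 (T d))).card : ℝ) := by
  obtain ⟨c, hc, H0, h⟩ := hT
  obtain ⟨c2, C, T0, hc2, hlow⟩ := Pool.Agent.W672.FK.lowf
  obtain ⟨l, hl⟩ : ∃ l : ℕ, l = 8 * (C + 1) := ⟨_, rfl⟩
  have hl0 : (0 : ℝ) < l := by
    have : 0 < l := by omega
    exact_mod_cast this
  refine ⟨c * c2 / (3 * (4 * (l : ℝ) ^ 2) * 841), by positivity,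
    max (4096 * (H0 + 1)) ((2 * l * (T0 + 1)) ^ 6), fun H hH => ?_⟩
  have hH1 : 4096 * (H0 + 1) ≤ H := (le_max_left _ _).trans hH
  have hH2 : (2 * l * (T0 + 1)) ^ 6 ≤ H := (le_max_right _ _).trans hH
  obtain ⟨M, hM0, hM⟩ : ∃ M : ℝ, 0 ≤ M ∧ M ^ 6 = H := by
    refine ⟨(H : ℝ) ^ ((1 : ℝ) / 6), by positivity, ?_⟩
    rw [← Real.rpow_natCast, ← Real.rpow_mul (Nat.cast_nonneg H)]
    norm_num
  have hMl : 2 * (l : ℝ) * (T0 + 1) ≤ M := by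
    have : (2 * (l : ℝ) * (T0 + 1)) ^ 6 ≤ M ^ 6 := by
      rw [hM]
      exact_mod_cast hH2
    exact (pow_le_pow_iff_left₀ (by positivity) hM0 (by norm_num)).1 this
  have hl8 : (8 : ℝ) ≤ l := by
    have : 8 ≤ l := by omega
    exact_mod_cast this
  have hM1 : 1 ≤ M := by
    have : (0 : ℝ) ≤ T0 := Nat.cast_nonneg _
    nlinarith
  obtain ⟨t, ht⟩ : ∃ t : ℕ, t = ⌊M / l⌋₊ := ⟨_, rfl⟩
  have ht1 : (t : ℝ) ≤ M / l := by
    rw [ht]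
    exact Nat.floor_le (by positivity)
  have ht2 : M / l < t + 1 := by
    rw [ht]
    exact Nat.lt_floor_add_one _
  have hMl2 : 2 * ((T0 : ℝ) + 1) ≤ M / l := by
    rw [le_div_iff₀ hl0]
    linarith
  have ht3 : T0 ≤ t := by
    have : (T0 : ℝ) < t + 1 := by
      have : (0 : ℝ) ≤ T0 := Nat.cast_nonneg _
      linarith
    have : T0 < t + 1 := by exact_mod_cast this
    omega
  have ht4 : M / (2 * l) ≤ t := by
    have e1 : M / (2 * l) = M / l / 2 := by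
      field_simp
    rw [e1]
    have : (0 : ℝ) ≤ T0 := Nat.cast_nonneg _
    linarith
  have hCt : C * t ^ 6 ≤ H / 4096 := by
    rw [Nat.le_div_iff_mul_le (by norm_num)]
    have h1 : ((l : ℝ) * t) ^ 6 ≤ M ^ 6 := by
      apply pow_le_pow_left₀ (by positivity)
      rw [le_div_iff₀ hl0] at ht1
      linarith
    rw [hM] at h1
    have h2 : (l * t) ^ 6 ≤ H := by exact_mod_cast h1
    refine le_trans ?_ h2
    rw [hl, mul_pow, mul_pow]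
    have h3 : C ≤ (C + 1) ^ 6 := by
      calc C ≤ C + 1 := Nat.le_succ C
        _ ≤ (C + 1) ^ 6 := Nat.le_self_pow (by norm_num) _
    calc C * t ^ 6 * 4096 ≤ (C + 1) ^ 6 * t ^ 6 * 8 ^ 6 := by gcongr; norm_num
      _ = 8 ^ 6 * (C + 1) ^ 6 * t ^ 6 := by ring
  have h3 := hlow t (H / 4096) ht3 hCt
  have hH3 : H0 ≤ H / 4096 := by
    rw [Nat.le_div_iff_mul_le (by norm_num)]
    omega
  obtain ⟨d, hd, S, hS, hcard⟩ := h _ hH3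
  refine ⟨d, hd, ?_⟩
  obtain ⟨R, hR, hRc⟩ := img S hS
  have h4 : R ⊆ (Fm H).filter (Q4 (T d)) := by
    intro x hx
    obtain ⟨g1, g2, -⟩ := hR x hx
    rw [mem_filter]
    exact ⟨Fm_mono (Nat.mul_div_le H 4096) g2, g1⟩
  have h5 : (S.card : ℝ) ≤ 3 * (((Fm H).filter (Q4 (T d))).card : ℝ) := by
    have : S.card ≤ 3 * ((Fm H).filter (Q4 (T d))).card :=
      hRc.trans (Nat.mul_le_mul_left 3 (card_le_card h4))
    exact_mod_cast this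
  have h6 := Fm_up H M hM1 hM
  have h7 : (M / (2 * l)) ^ 2 ≤ (t : ℝ) ^ 2 := pow_le_pow_left₀ (by positivity) ht4 2
  have h8 : c * (c2 * (M / (2 * l)) ^ 2) ≤ 3 * (((Fm H).filter (Q4 (T d))).card : ℝ) :=
    calc c * (c2 * (M / (2 * l)) ^ 2) ≤ c * (c2 * (t : ℝ) ^ 2) := by gcongr
      _ ≤ c * ((Cv 2 (H / 4096)).card : ℝ) := by gcongr
      _ ≤ S.card := hcard
      _ ≤ _ := h5
  calc c * c2 / (3 * (4 * (l : ℝ) ^ 2) * 841) * ((Fm H).card : ℝ)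
      ≤ c * c2 / (3 * (4 * (l : ℝ) ^ 2) * 841) * (841 * M ^ 2) :=
        mul_le_mul_of_nonneg_left h6 (by positivity)
    _ = c * (c2 * (M / (2 * l)) ^ 2) / 3 := by
        field_simp
        ring
    _ ≤ _ := by linarith

/-- **positive proportions, by the conductor** -/
theorem posCL {ι : Type} {Lst : Finset ι} {T : ι → ℤ × ℤ → Prop} (hT : ∃ c : ℝ, 0 < c ∧
      ∃ H0 : ℕ, ∀ H : ℕ, H0 ≤ H → ∃ d ∈ Lst,
      ∃ S : Finset (ℤ × ℤ), (S : Set (ℤ × ℤ)) ⊆ {k | k ∈ Cv 2 H ∧ T d k} ∧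
      c * ((Cv 2 H).card : ℝ) ≤ (S.card : ℝ)) :
    ∃ δ : ℝ, 0 < δ ∧ ∀ f : ℤ × ℤ → ℕ, Bdd f → ∀ᶠ Z : ℕ in atTop, ∃ d ∈ Lst,
      δ ≤ ((Gm P4 f Z ∩ {k | Q4 (T d) k}).ncard : ℝ) / (Gm P4 f Z).ncard := by
  classical
  obtain ⟨c, hc, H0, h⟩ := hT
  obtain ⟨C, Z1, hC, hup⟩ := G4_up
  obtain ⟨c', Z2, hc', hlo⟩ := Pool.Agent.Y679.Cr.low2 good_Ok.low
  obtain ⟨c3, Z3, hc3, hge⟩ := G4_ge
  refine ⟨c * c' / (3 * C), by positivity, fun f hf => ?_⟩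
  filter_upwards [eventually_ge_atTop Z1, eventually_ge_atTop Z2, eventually_ge_atTop Z3,
    eventually_ge_atTop (62208 * (H0 + 1)), eventually_ge_atTop 1] with Z h1 h2 h2' h3 h3'
  have h4' : (0 : ℝ) < ((Gm P4 f Z).ncard : ℝ) := by
    have h5 := hge f hf Z h2'
    have h6 : (0 : ℝ) < (Z : ℝ) ^ ((2 : ℝ) / 3) := by
      have : (0 : ℝ) < Z := by exact_mod_cast h3'
      positivity
    have : 0 < c3 * (Z : ℝ) ^ ((2 : ℝ) / 3) := by positivity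
    linarith
  have h5 : H0 ≤ (Z / 62208) ^ 2 := by
    have h6 : H0 + 1 ≤ Z / 62208 := by
      rw [Nat.le_div_iff_mul_le (by norm_num)]
      linarith
    nlinarith
  obtain ⟨d, hd, S, hS, hcard⟩ := h _ h5
  refine ⟨d, hd, ?_⟩
  rw [le_div_iff₀ h4']
  obtain ⟨R, hR, hRc⟩ := img S hS
  have h6 : (R : Set (ℤ × ℤ)) ⊆ Gm P4 f Z ∩ {k | Q4 (T d) k} := by
    intro x hx
    obtain ⟨g1, g2, c1, hc1, e, q, u, r, L⟩ := hR x (mem_coe.1 hx)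
    refine ⟨⟨⟨L.hD, L.hR, e, q, L.hc1, L.hc2⟩, ?_⟩, g1⟩
    have h7 := Pool.Agent.Y679.Cr.sub good_Ok.ok good_Ok.cv (f := fun _ => 62208)
      (fun _ _ => le_rfl) Z (mem_coe.2 (hS (mem_coe.2 hc1)).1)
    have h8 : 62208 * cs c1 ≤ Z := h7.2
    rw [L.cond] at h8
    exact (Nat.mul_le_mul_right _ (hf x).2).trans h8
  have h7 : (R.card : ℝ) ≤ ((Gm P4 f Z ∩ {k | Q4 (T d) k}).ncard : ℝ) := by
    rw [← Set.ncard_coe_finset]
    exact Nat.cast_le.2 (Set.ncard_le_ncard h6 ((G4_fin hf Z).subset Set.inter_subset_left))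
  have h8 : (S.card : ℝ) ≤ 3 * (R.card : ℝ) := by exact_mod_cast hRc
  have h9 := hlo Z h2
  have h10 := hup f hf Z h1
  calc c * c' / (3 * C) * ((Gm P4 f Z).ncard : ℝ)
      ≤ c * c' / (3 * C) * (C * (Z : ℝ) ^ ((2 : ℝ) / 3)) :=
        mul_le_mul_of_nonneg_left h10 (by positivity)
    _ = c * (c' * (Z : ℝ) ^ ((2 : ℝ) / 3)) / 3 := by field_simp
    _ ≤ c * ((Cv 2 ((Z / 62208) ^ 2)).card : ℝ) / 3 := by gcongr
    _ ≤ (R.card : ℝ) := by linarith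
    _ ≤ _ := h7


/-- the rank and the 2-primary part of the Tate-Shafarevich group of a twist -/
theorem zeroD {c c' : ℤ × ℤ} {e q : ℤ} {u : ℕ} {r : ℤ} (L : Lk c c' e q u r)
    (hT : HasT 2 (Sh c'.1 c'.2)) {D : ℤ} (hD : D ≠ 0)
    (hf : (Pool.Agent.W307.SE.SelR (D ^ 2 * c'.1) (D ^ 3 * c'.2)).Finite)
    (hn : (Pool.Agent.W307.SE.SelR (D ^ 2 * c'.1) (D ^ 3 * c'.2)).ncard = 4) :
    Module.finrank ℤ (Sh (D ^ 2 * c.1) (D ^ 3 * c.2)).toAffine.Point = 0 ∧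
      ∀ (k : ℕ) (x : Sha (Sh (D ^ 2 * c.1) (D ^ 3 * c.2))), (2 ^ k : ℕ) • x = 0 → x + x = 0 := by
  classical
  obtain ⟨h1, h2⟩ := Pool.Agent.Y667.SHA.sha_zero4
    (c := (D ^ 2 * c'.1, D ^ 3 * c'.2)) (Pool.Agent.Y723.QT.disc_q hD L.D')
    (Pool.Agent.Y667.QK.hasT_tw hD L.D' hT) hf hn.le
  obtain ⟨θ, θ', h3⟩ := L.two hD
  obtain ⟨e1, e2, e3, he⟩ := roots_Ok c' L.ok
  have hfin : Module.Finite ℤ (Sh (D ^ 2 * c'.1) (D ^ 3 * c'.2)).toAffine.Point :=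
    Pool.Agent.W307.RG.fin_tw L.D' he (d := D) hD
  refine ⟨?_, fun k x hx => sha_two θ θ' h3 x (h2 k _ ?_)⟩
  · have h4 := pt_two θ θ' h3
    have h5 : Module.rank ℤ (Sh (D ^ 2 * c'.1) (D ^ 3 * c'.2)).toAffine.Point =
        ((Module.finrank ℤ (Sh (D ^ 2 * c'.1) (D ^ 3 * c'.2)).toAffine.Point : ℕ) : Cardinal) :=
      (Module.finrank_eq_rank ℤ _).symm
    have h6 : Module.finrank ℤ (Sh (D ^ 2 * c'.1) (D ^ 3 * c'.2)).toAffine.Point = 0 := h1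
    rw [h5, h6] at h4
    have := Module.finrank_le_of_rank_le h4
    omega
  · rw [← map_nsmul, hx, map_zero]

/-- the curves with full rational 2-torsion: simultaneous twists -/
theorem simul (m N : ℕ) : ∃ Lst : Finset (Fin m → ℕ), (∀ d ∈ Lst, Pool.Agent.Y667.QK.Tup m N d) ∧
    ∃ c : ℝ, 0 < c ∧ ∃ H0 : ℕ, ∀ H : ℕ, H0 ≤ H → ∃ d ∈ Lst,
      ∃ S : Finset (ℤ × ℤ), (S : Set (ℤ × ℤ)) ⊆
        {k | k ∈ Cv 2 H ∧ Pool.Agent.Y667.QK.TwS (fun j => (d j : ℤ)) k} ∧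
      c * ((Cv 2 H).card : ℝ) ≤ (S.card : ℝ) := by
  classical
  obtain ⟨β, hfl⟩ := Pool.Agent.Y388.QK.FLIP 17 (by norm_num) (by norm_num)
  obtain ⟨L, hL, δ, hδ, H0, h⟩ := Pool.Agent.Y667.QK.main_h Pool.Agent.Y388.QK.PRM hfl m N
  refine ⟨L, hL, δ, hδ, H0, fun H hH => ?_⟩
  obtain ⟨d, hd, hle⟩ := h H hH
  exact ⟨d, hd, _, fun k hk => mem_filter.1 (mem_coe.1 hk), hle⟩

end Pool.Agent.Q17.QF
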