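import Mathlib
import Pool.Agent.Y667.QKR.Mult
import Pool.Agent.Q17.TP.Iso
import Pool.Agent.Q17.IG.Prp
import Pool.Agent.Q17.TN.Cnt

/-! The rank over a quadratic field and 2-isogenies. -/

set_option autoImplicit false


namespace Pool.Agent.Q17.QF

open Finset Filter WeierstrassCurve
open Pool.Agent.W307.RT (Sh HasT Cv)
open Pool.Agent.Q17.IG (Lk Q4 Fm posH4)

/-- the positive proportion for the curves with full rational 2-torsion -/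
lemma tqr_pos {f : ℕ} (hf : f.Prime) (h8 : f % 8 = 1) : ∃ c : ℝ, 0 < c ∧ ∃ H0 : ℕ, ∀ H : ℕ,
    H0 ≤ H → ∃ S : Finset (ℤ × ℤ),
      (S : Set (ℤ × ℤ)) ⊆ {k | k ∈ Cv 2 H ∧ Pool.Agent.Y667.QK.R.TQR f k} ∧
      c * ((Cv 2 H).card : ℝ) ≤ (S.card : ℝ) := by
  classical
  obtain ⟨c, hc, H0, h⟩ := Pool.Agent.Y667.QK.R.mainF hf h8
  refine ⟨c, hc, H0, fun H hH => ⟨_, fun k hk => ?_, h H hH⟩⟩
  exact mem_filter.1 (mem_coe.1 hk)

open Classical in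
/-- the rank over `ℚ(√f)` -/
theorem rank_one {f : ℕ} (hf : f ≠ 0) {c : ℤ × ℤ} (h : Q4 (Pool.Agent.Y667.QK.R.TQR f) c)
    (F : Type) [Field F] [NumberField F] (s : F) (hs : s ^ 2 = (f : F))
    (hgen : IntermediateField.adjoin ℚ {s} = ⊤) :
    Module.finrank ℤ ((Sh c.1 c.2).baseChange F).toAffine.Point ≤ 1 := by
  obtain ⟨c', hT, h2, e, q, u, r, L⟩ := h
  obtain ⟨θ, θ', h3⟩ := L.two1
  have hm : c' ∈ Cv 2 (4 * c'.1.natAbs ^ 3 + 27 * c'.2.natAbs ^ 2) := by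
    refine Pool.Agent.Q17.TN.mem_Cv.2 ⟨L.D', ?_, ?_, L.hR', h2⟩
    · push_cast
      have : (0 : ℤ) ≤ 27 * |c'.2| ^ 2 := by positivity
      linarith
    · push_cast
      have : (0 : ℤ) ≤ 4 * |c'.1| ^ 3 := by positivity
      rw [sq_abs]
      linarith
  refine (Pool.Agent.Q17.TP.rank_iso θ θ' h3 (Pool.Agent.Q17.TP.fin_E hm)).trans ?_
  have h4 := Pool.Agent.Y667.QK.QF.rank_le hf L.D' h2 (Pool.Agent.Y667.QK.R.tq_of hT) F s hs hgen
  have h5 : (Sh c'.1 c'.2).baseChange F = Pool.Agent.W307.RS.ShK (c'.1 : F) (c'.2 : F) := by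
    unfold Sh Pool.Agent.W307.RS.ShK WeierstrassCurve.baseChange WeierstrassCurve.map
    simp
  rw [h5]
  exact h4

end Pool.Agent.Q17.QF
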